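import Pool.Agent.QSB.StmtsS

set_option autoImplicit false

/-!
# Row DOM: two dominant roots of the same component are not orthogonal
-/

namespace Pool.Agent.QSB.H24

open Matrix Finset Pool.Agent.QSX Pool.Agent.QSB

variable {X : Dat}

lemma ip_zero_left (ν : X.b →ₗ[ℝ] ℝ) : ip X 0 ν = 0 := by
  rw [← ip_eq, LinearMap.zero_apply]

lemma ip_list_left (L : List (X.b →ₗ[ℝ] ℝ)) (ν : X.b →ₗ[ℝ] ℝ) :
    ip X L.sum ν = (L.map fun α => ip X α ν).sum := by
  induction L with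
  | nil => exact ip_zero_left ν
  | cons a L ih => rw [List.sum_cons, List.map_cons, List.sum_cons, ip_add_left, ih]

lemma list_zero (L : List (X.b →ₗ[ℝ] ℝ)) (f : (X.b →ₗ[ℝ] ℝ) → ℝ) (h : ∀ α ∈ L, f α = 0) :
    (L.map f).sum = 0 := by
  induction L with
  | nil => rfl
  | cons a L ih =>
    rw [List.map_cons, List.sum_cons, h a List.mem_cons_self,
      ih fun α hα => h α (List.mem_cons_of_mem a hα), add_zero]

lemma list_nonneg (L : List (X.b →ₗ[ℝ] ℝ)) (f : (X.b →ₗ[ℝ] ℝ) → ℝ) (h : ∀ α ∈ L, 0 ≤ f α) :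
    0 ≤ (L.map f).sum := by
  induction L with
  | nil => exact le_refl _
  | cons a L ih =>
    rw [List.map_cons, List.sum_cons]
    exact add_nonneg (h a List.mem_cons_self) (ih fun α hα => h α (List.mem_cons_of_mem a hα))

lemma list_all_zero (L : List (X.b →ₗ[ℝ] ℝ)) (f : (X.b →ₗ[ℝ] ℝ) → ℝ) (h : ∀ α ∈ L, 0 ≤ f α)
    (hs : (L.map f).sum ≤ 0) : ∀ α ∈ L, f α = 0 := by
  induction L with
  | nil =>
    intro α hα
    exact absurd hα List.not_mem_nil
  | cons a L ih =>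
    rw [List.map_cons, List.sum_cons] at hs
    have h1 := h a List.mem_cons_self
    have h2 := list_nonneg L f fun α hα => h α (List.mem_cons_of_mem a hα)
    intro α hα
    rcases List.mem_cons.1 hα with e | e
    · rw [e]
      linarith
    · exact ih (fun α hα => h α (List.mem_cons_of_mem a hα)) (by linarith) α e

lemma list_neg (L : List (X.b →ₗ[ℝ] ℝ)) (f : (X.b →ₗ[ℝ] ℝ) → ℝ) :
    (L.map fun α => -f α).sum = -(L.map f).sum := by
  induction L with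
  | nil => exact neg_zero.symm
  | cons a L ih =>
    rw [List.map_cons, List.sum_cons, List.map_cons, List.sum_cons, ih]
    ring

lemma dom_aux (hWtr : WtrStmt) (hSpr : SprStmt) (hSup : SupStmt) (hne : Nonempty (Sym X))
    (R : RBas X) (θ : R.ι) (hθ : ∀ k, 0 ≤ ip X (R.rt θ) (R.rt k)) (L : List (X.b →ₗ[ℝ] ℝ))
    (hL : ∀ α ∈ L, Smp X α) (hsum : L.sum = R.rt θ) (l : R.ι) (h : R.Eqv l θ) :
    ∃ L' : List (X.b →ₗ[ℝ] ℝ), (∀ α ∈ L', α ∈ L) ∧ L'.sum = R.rt l := by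
  have hrt : ∀ k, IsRt X (R.rt k) := fun k => ((hWtr X R (R.rt k)).2).2 ⟨k, rfl⟩
  have horth : ∀ α ∈ {α | α ∈ L}, ∀ β ∈ {β | Smp X β ∧ β ∉ L}, ip X α β = 0 := by
    intro α hα β hβ
    obtain ⟨k, hk⟩ := ((hWtr X R β).2).1 hβ.1.1
    have h1 : 0 ≤ ip X L.sum β := by
      rw [hsum, ← hk]
      exact hθ k
    rw [ip_list_left] at h1
    have h2 : ∀ γ ∈ L, 0 ≤ -ip X γ β := by
      intro γ hγ
      have hne' : γ ≠ β := by
        intro e
        apply hβ.2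
        rw [← e]
        exact hγ
      have := hSpr X hne γ β (hL γ hγ) hβ.1 hne'
      linarith
    have h3 := list_all_zero L (fun γ => -ip X γ β) h2 (by
      rw [list_neg]
      linarith) α hα
    have h4 : -ip X α β = 0 := h3
    linarith
  have hsup := hSup X hne ⟨R⟩ {α | α ∈ L} {β | Smp X β ∧ β ∉ L} (by
    intro α hα
    by_cases h : α ∈ L
    · exact Or.inl h
    · exact Or.inr ⟨hα, h⟩) (fun α hα => hL α hα) (fun α hα => hα.1) horth
  have hstep : ∀ k k', ip X (R.rt k) (R.rt k') ≠ 0 →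
      (∃ L' : List (X.b →ₗ[ℝ] ℝ), (∀ α ∈ L', α ∈ L) ∧ L'.sum = R.rt k) →
      ∃ L' : List (X.b →ₗ[ℝ] ℝ), (∀ α ∈ L', α ∈ L) ∧ L'.sum = R.rt k' := by
    intro k k' hkk ⟨L1, hL1, hs1⟩
    rcases hsup (R.rt k') (hrt k') with ⟨L2, hL2, hs2⟩ | ⟨L2, hL2, hs2⟩
    · exact ⟨L2, hL2, hs2⟩
    · exfalso
      apply hkk
      rw [← hs1, ip_list_left]
      apply list_zero
      intro α hα
      rw [ip_comm, ← hs2, ip_list_left]
      apply list_zero
      intro β hβ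
      rw [ip_comm]
      exact horth α (hL1 α hα) β (hL2 β hβ)
  have hiff : ∀ a b : R.ι, Relation.EqvGen (fun l l' => ip X (R.rt l) (R.rt l') ≠ 0) a b →
      ((∃ L' : List (X.b →ₗ[ℝ] ℝ), (∀ α ∈ L', α ∈ L) ∧ L'.sum = R.rt a) ↔
      ∃ L' : List (X.b →ₗ[ℝ] ℝ), (∀ α ∈ L', α ∈ L) ∧ L'.sum = R.rt b) := by
    intro a b hab
    induction hab with
    | rel x y hxy =>
      refine ⟨hstep x y hxy, hstep y x ?_⟩
      rw [ip_comm]
      exact hxy
    | refl x => exact Iff.rfl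
    | symm x y _ ih => exact ih.symm
    | trans x y z _ _ ih1 ih2 => exact ih1.trans ih2
  exact (hiff l θ h).2 ⟨L, fun _ h => h, hsum⟩

theorem dom (hWtr : WtrStmt) (hSmr : SmrStmt) (hSpr : SprStmt) (hSup : SupStmt) : DomStmt := by
  intro X hne R l θ hlθ hl0 hl hθ h0
  have hrt : ∀ k, IsRt X (R.rt k) := fun k => ((hWtr X R (R.rt k)).2).2 ⟨k, rfl⟩
  obtain ⟨L, hL, hsum⟩ := hSmr X hne ⟨R⟩ (R.rt θ) (hrt θ)
  obtain ⟨L', hL', hsum'⟩ := dom_aux hWtr hSpr hSup hne R θ hθ L hL hsum l hlθ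
  have h1 : ∀ β ∈ L, ip X β (R.rt l) = 0 := by
    apply list_all_zero L (fun β => ip X β (R.rt l))
    · intro β hβ
      obtain ⟨k, hk⟩ := ((hWtr X R β).2).1 (hL β hβ).1
      rw [ip_comm, ← hk]
      exact hl k
    · rw [← ip_list_left, hsum, ip_comm, h0]
  have h2 : ip X (R.rt l) (R.rt l) = 0 := by
    rw [show ip X (R.rt l) (R.rt l) = ip X L'.sum (R.rt l) by rw [hsum'], ip_list_left]
    apply list_zero
    intro β hβ
    exact h1 β (hL' β hβ)
  exact hl0 (ip_self_eq_zero h2)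

end Pool.Agent.QSB.H24
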